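import Pool.Agent.Helper36.CV.StmtsD

/-!
D10: the Lyapunov exponent from level `N`.
-/

set_option autoImplicit false

namespace Pool.Agent.Helper36.CV

noncomputable section

lemma d10_sqrt5 : (2.23606 : ℝ) < Real.sqrt 5 ∧ Real.sqrt 5 < 2.23607 := by
  constructor
  · apply Real.lt_sqrt_of_sq_lt
    norm_num
  · rw [Real.sqrt_lt' (by norm_num)]
    norm_num

lemma d10_gam : (0.61803 : ℝ) < gam ∧ gam < 0.618035 := by
  obtain ⟨h1, h2⟩ := d10_sqrt5
  unfold gam
  constructor <;> linarith

lemma d10_sq : gam ^ 2 = 1 - gam := by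
  have h := Real.sq_sqrt (show (0 : ℝ) ≤ 5 by norm_num)
  unfold gam
  nlinarith

lemma d10_phi : phi = 1 + gam := by
  unfold phi gam
  ring

lemma d10_gp : gam * phi = 1 := by
  rw [d10_phi]
  linear_combination d10_sq

/-- the increments -/
def d10_d (l E : ℝ) (i : ℕ) : ℝ := tau l (i + 2) E - tau l (i + 1) E - tau l i E

lemma d10_tau0 (l E : ℝ) : tau l 0 E = 0 := by
  unfold tau
  rw [X, abs_one, max_self, Real.arcosh_zero]

lemma d10_part (l E : ℝ) (N : ℕ) :
    tau l 1 E + ∑ i ∈ Finset.range N, gam ^ (i + 1) * d10_d l E i =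
      gam ^ N * (tau l (N + 1) E + gam * tau l N E) := by
  induction N with
  | zero =>
    rw [Finset.sum_range_zero, d10_tau0]
    ring
  | succ N ih =>
    rw [Finset.sum_range_succ, ← add_assoc, ih]
    unfold d10_d
    linear_combination (-(gam ^ N) * tau l (N + 1) E) * d10_sq

theorem st_D10 (h11 : ST_T11) : ST_D10 := by
  intro l hl hl1 N E
  obtain ⟨g1, g2⟩ := d10_gam
  have hg0 : 0 < gam := by linarith
  have hg1 : gam < 1 := by linarith
  have hb : ∀ i, |d10_d l E i| ≤ Real.sqrt |l| := fun i => (h11 l hl hl1 i E).1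
  have hterm : ∀ i, |gam ^ (i + 1) * d10_d l E i| ≤ gam ^ i * Real.sqrt |l| := by
    intro i
    rw [abs_mul, abs_pow, abs_of_pos hg0]
    apply mul_le_mul _ (hb i) (abs_nonneg _) (by positivity)
    exact pow_le_pow_of_le_one hg0.le hg1.le (Nat.le_succ i)
  have hgeo : Summable fun i : ℕ => gam ^ i * Real.sqrt |l| :=
    (summable_geometric_of_lt_one hg0.le hg1).mul_right _
  have hsum : Summable fun i : ℕ => gam ^ (i + 1) * d10_d l E i :=
    Summable.of_norm_bounded hgeo hterm
  have hLy : Ly l E = gam ^ N * (tau l (N + 1) E + gam * tau l N E) +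
      ∑' j : ℕ, gam ^ (j + N + 1) * d10_d l E (j + N) := by
    rw [← d10_part, add_assoc, hsum.sum_add_tsum_nat_add N]
    rfl
  have htail : ∀ j, |gam ^ (j + N + 1) * d10_d l E (j + N)| ≤
      gam ^ N * gam * Real.sqrt |l| * gam ^ j := by
    intro j
    rw [abs_mul, abs_pow, abs_of_pos hg0]
    calc gam ^ (j + N + 1) * |d10_d l E (j + N)| ≤ gam ^ (j + N + 1) * Real.sqrt |l| :=
          mul_le_mul_of_nonneg_left (hb _) (by positivity)
      _ = _ := by ring
  have hgeo2 : Summable fun j : ℕ => gam ^ N * gam * Real.sqrt |l| * gam ^ j :=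
    (summable_geometric_of_lt_one hg0.le hg1).mul_left _
  constructor
  · rw [hLy, add_sub_cancel_left]
    have h1 : ‖∑' j : ℕ, gam ^ (j + N + 1) * d10_d l E (j + N)‖ ≤
        ∑' j : ℕ, gam ^ N * gam * Real.sqrt |l| * gam ^ j :=
      tsum_of_norm_bounded hgeo2.hasSum htail
    rw [tsum_mul_left, tsum_geometric_of_lt_one hg0.le hg1] at h1
    rw [← Real.norm_eq_abs]
    refine h1.trans (le_of_eq ?_)
    have h2 : (1 - gam)⁻¹ = phi ^ 2 := by
      rw [inv_eq_iff_eq_inv, ← d10_sq]
      have h3 : gam = phi⁻¹ := eq_inv_of_mul_eq_one_left d10_gp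
      rw [h3, inv_pow]
    rw [h2]
    linear_combination (gam ^ N * Real.sqrt |l| * phi) * d10_gp
  · intro hj
    rw [hLy]
    have h1 : 0 ≤ ∑' j : ℕ, gam ^ (j + N + 1) * d10_d l E (j + N) := by
      apply tsum_nonneg
      intro j
      apply mul_nonneg (by positivity)
      have := hj (j + N) (Nat.le_add_left _ _)
      unfold d10_d
      linarith
    linarith

end

end Pool.Agent.Helper36.CV
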