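import Pool.Agent.Helper36.CV.StmtsD

/-!
D2: trigonometric bounds for `D`.
-/

set_option autoImplicit false

namespace Pool.Agent.Helper36.CV

open Complex

noncomputable section

/-- difference of cosines -/
lemma d2_cos {u d t c : ℝ} (ht : 0 ≤ t) (ht1 : t ≤ 1 / 10) (hd : |d| ≤ 101 / 100 * t)
    (hc : |Real.cos u - Real.cos (u + d)| ≤ c) :
    |d| * (|Real.sin u| - 51 / 100 * t) ≤ 1001 / 1000 * c := by
  have hc0 : 0 ≤ c := (abs_nonneg _).trans hc
  rcases lt_or_ge (|Real.sin u| - 51 / 100 * t) 0 with h | h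
  · have h1 : |d| * (|Real.sin u| - 51 / 100 * t) ≤ 0 :=
      mul_nonpos_of_nonneg_of_nonpos (abs_nonneg d) h.le
    linarith
  have e1 : Real.cos u - Real.cos (u + d) = 2 * Real.sin (u + d / 2) * Real.sin (d / 2) := by
    rw [Real.cos_sub_cos]
    have e2 : (u + (u + d)) / 2 = u + d / 2 := by ring
    have e3 : (u - (u + d)) / 2 = -(d / 2) := by ring
    rw [e2, e3, Real.sin_neg]
    ring
  rw [e1, abs_mul, abs_mul, abs_of_pos (by norm_num : (0 : ℝ) < 2)] at hc
  have h2 : |Real.sin u| - |d| / 2 ≤ |Real.sin (u + d / 2)| := by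
    have e2 : |Real.sin u - Real.sin (u + d / 2)| ≤ |d| / 2 := by
      rw [Real.sin_sub_sin]
      have e3 : (u - (u + d / 2)) / 2 = -(d / 4) := by ring
      rw [e3, Real.sin_neg, abs_mul, abs_mul, abs_neg, abs_of_pos (by norm_num : (0 : ℝ) < 2)]
      have e4 : |Real.sin (d / 4)| ≤ |d / 4| := Real.abs_sin_le_abs
      have e5 := Real.abs_cos_le_one ((u + (u + d / 2)) / 2)
      have e6 : |d / 4| = |d| / 4 := by
        rw [abs_div, abs_of_pos (by norm_num : (0 : ℝ) < 4)]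
      rw [e6] at e4
      have e7 : |Real.sin (d / 4)| * |Real.cos ((u + (u + d / 2)) / 2)| ≤ |d| / 4 * 1 :=
        mul_le_mul e4 e5 (abs_nonneg _) (by positivity)
      linarith
    have e3 := abs_sub_abs_le_abs_sub (Real.sin u) (Real.sin (u + d / 2))
    linarith
  have h3 : 9995 / 10000 * (|d| / 2) ≤ |Real.sin (d / 2)| := by
    have e2 : |Real.sin (d / 2)| = Real.sin (|d| / 2) := by
      rcases abs_cases d with ⟨h4, h5⟩ | ⟨h4, h5⟩
      · rw [h4, abs_of_nonneg]
        apply Real.sin_nonneg_of_nonneg_of_le_pi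
        · linarith
        · have := Real.pi_gt_three
          linarith
      · rw [h4]
        have : Real.sin (-d / 2) = -Real.sin (d / 2) := by
          rw [neg_div, Real.sin_neg]
        rw [this, abs_of_nonpos]
        have h6 : 0 ≤ Real.sin (-d / 2) := by
          apply Real.sin_nonneg_of_nonneg_of_le_pi
          · linarith
          · have := Real.pi_gt_three
            rw [← h4]
            linarith
        linarith
    rw [e2]
    rcases (abs_nonneg d).lt_or_eq with h4 | h4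
    · have h5 := Real.sin_gt_sub_cube (x := |d| / 2) (by linarith)
      have h6 : |d| ≤ 0.101 := by linarith
      have h7 : (|d| / 2) ^ 3 ≤ (0.0505) ^ 2 * (|d| / 2) := by
        have : (|d| / 2) ^ 3 = (|d| / 2) ^ 2 * (|d| / 2) := by ring
        rw [this]
        apply mul_le_mul_of_nonneg_right _ (by positivity)
        apply pow_le_pow_left₀ (by positivity)
        linarith
      norm_num at h7
      linarith
    · rw [← h4]
      simp
  have h4 : |Real.sin u| - 51 / 100 * t ≤ |Real.sin (u + d / 2)| := by linarith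
  have h5 : (|Real.sin u| - 51 / 100 * t) * (9995 / 10000 * (|d| / 2)) ≤
      |Real.sin (u + d / 2)| * |Real.sin (d / 2)| :=
    mul_le_mul h4 h3 (by positivity) (abs_nonneg _)
  have h6 : 0 ≤ |d| * (|Real.sin u| - 51 / 100 * t) := mul_nonneg (abs_nonneg d) h
  have h7 : (|Real.sin u| - 51 / 100 * t) * (9995 / 10000 * (|d| / 2)) =
      9995 / 20000 * (|d| * (|Real.sin u| - 51 / 100 * t)) := by ring
  rw [h7] at h5
  linarith only [h5, h6, hc, hc0]

/-- the three cases in one: `c` is the difference of the real parts -/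
lemma d2_core {l u d p q : ℝ} (hl1 : |l| ≤ 1 / 100) (hd : |d| ≤ 101 / 100 * Real.sqrt |l|)
    (h1 : |Real.cos u - Real.cos (u + d)| ≤ |l| / 2)
    (h2 : |Real.cos u - Real.cos (u + d)| * (2 * (|p| * |q|)) ≤ l ^ 2 / 4) :
    |d| * (|Real.sin u| - 51 / 100 * Real.sqrt |l|) ≤ 502 / 1000 * |l| ∧
    |d| * (|Real.sin u| - 51 / 100 * Real.sqrt |l|) * (8 * |p| * |q|) ≤ 101 / 100 * l ^ 2 := by
  have ht1 : Real.sqrt |l| ≤ 1 / 10 := by
    rw [Real.sqrt_le_left (by norm_num)]
    norm_num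
    linarith
  have h3 := d2_cos (u := u) (c := |Real.cos u - Real.cos (u + d)|) (Real.sqrt_nonneg _) ht1 hd le_rfl
  constructor
  · linarith [abs_nonneg l]
  · have h4 : |d| * (|Real.sin u| - 51 / 100 * Real.sqrt |l|) * (8 * |p| * |q|) ≤
        1001 / 1000 * |Real.cos u - Real.cos (u + d)| * (8 * |p| * |q|) :=
      mul_le_mul_of_nonneg_right h3 (by positivity)
    have h5 : 1001 / 1000 * |Real.cos u - Real.cos (u + d)| * (8 * |p| * |q|) =
      4004 / 1000 * (|Real.cos u - Real.cos (u + d)| * (2 * (|p| * |q|))) := by ring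
    rw [h5] at h4
    have h6 : 0 ≤ l ^ 2 := sq_nonneg l
    linarith

theorem st_D2 (hT1 : ST_T1) (h4 : ST_T4) (h5 : ST_T5) (h6 : ST_T6) : ST_D2 := by
  intro l hl hl1 n E
  -- abbreviations
  obtain ⟨_, _, hA⟩ := h6 l hl hl1 n
  obtain ⟨_, _, hB⟩ := h6 l hl hl1 (n + 1)
  obtain ⟨_, _, hC⟩ := h6 l hl hl1 (n + 2)
  obtain ⟨eA, hD, _⟩ := hA E
  obtain ⟨eB, _, _⟩ := hB E
  obtain ⟨eC, _, _⟩ := hC E
  obtain ⟨_, _, dA, hF⟩ := hT1 l E n
  obtain ⟨_, _, dB, _⟩ := hT1 l E (n + 1)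
  set A := M l E n with hAdef
  set B := M l E (n + 1) with hBdef
  have hAB : M l E (n + 2) = A * B := rfl
  rw [hAB] at eC
  have hTh : Th l (n + 2) E = Th l (n + 1) E + Th l n E + D l n E := rfl
  set x := Th l n E with hx
  set y := Th l (n + 1) E with hy
  set z := Th l (n + 2) E with hz
  set d := D l n E with hd
  have hF0 : 0 ≤ l ^ 2 / 4 := by positivity
  have hF1 : l ^ 2 / 4 < 1 := by
    have : l ^ 2 ≤ (1 / 100) ^ 2 := sq_le_sq' (by linarith [(abs_le.1 hl1).1]) (abs_le.1 hl1).2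
    norm_num at this
    linarith
  have hsq : Real.sqrt (l ^ 2 / 4) = |l| / 2 := by
    have : l ^ 2 / 4 = (|l| / 2) ^ 2 := by rw [div_pow, sq_abs]; ring
    rw [this, Real.sqrt_sq (by positivity)]
  have hre : ∀ w : ℝ, (exp ((w : ℂ) * I)).re = Real.cos w ∧ (exp ((w : ℂ) * I)).im = Real.sin w :=
    fun w => ⟨Complex.exp_ofReal_mul_I_re w, Complex.exp_ofReal_mul_I_im w⟩
  have hconj : ∀ w : ℝ, (starRingEnd ℂ) (exp ((w : ℂ) * I)) = exp (((-w : ℝ) : ℂ) * I) := by
    intro w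
    rw [← Complex.exp_conj, map_mul, Complex.conj_ofReal, Complex.conj_I]
    congr 1
    push_cast
    ring
  have hmul : ∀ v w : ℝ, exp ((v : ℂ) * I) * exp ((w : ℂ) * I) = exp (((v + w : ℝ) : ℂ) * I) := by
    intro v w
    rw [← Complex.exp_add]
    congr 1
    push_cast
    ring
  obtain ⟨iB1, iB2, iB3, _, iB5⟩ := h5 A B dA dB
  obtain ⟨_, _, _, _, iBd⟩ := h5 B B dB dB
  have phBinv : ph B⁻¹ = (starRingEnd ℂ) (ph B) := (h5 B B dB dB).1
  have hABd : (A * B).det = 1 := by rw [Matrix.det_mul, dA, dB, one_mul]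
  have hBu : IsUnit B.det := by rw [dB]; exact isUnit_one
  have hAu : IsUnit A.det := by rw [dA]; exact isUnit_one
  have hcancel1 : A * B * B⁻¹ = A := Matrix.mul_nonsing_inv_cancel_right _ _ hBu
  have hcancel2 : A⁻¹ * (A * B) = B := Matrix.nonsing_inv_mul_cancel_left _ _ hAu
  -- distinguished index `n + 2`
  have c2 : |Real.cos z - Real.cos (z + -d)| ≤ |l| / 2 ∧
      |Real.cos z - Real.cos (z + -d)| * (2 * (|Real.sin x| * |Real.sin y|)) ≤ l ^ 2 / 4 := by
    have h := h4 A B dA dB (by rw [hF]; exact hF0) (by rw [hF]; exact hF1)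
    rw [hF, hsq, ← eC, ← eA, ← eB, hmul, (hre _).1, (hre _).1, (hre _).2, (hre _).2] at h
    have e : x + y = z + -d := by rw [hTh]; ring
    rw [e] at h
    exact h
  -- distinguished index `n`
  have c0 : |Real.cos x - Real.cos (x + d)| ≤ |l| / 2 ∧
      |Real.cos x - Real.cos (x + d)| * (2 * (|Real.sin z| * |Real.sin y|)) ≤ l ^ 2 / 4 := by
    have h := h4 (A * B) B⁻¹ hABd iBd (by rw [iB3, hF]; exact hF0) (by rw [iB3, hF]; exact hF1)
    rw [hcancel1, iB3, hF, hsq, phBinv, ← eC, ← eA, ← eB, hconj, hmul, (hre _).1, (hre _).1,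
      (hre _).2, (hre _).2, Real.sin_neg, abs_neg] at h
    have e : z + -y = x + d := by rw [hTh]; ring
    rw [e] at h
    exact h
  -- distinguished index `n + 1`
  have c1 : |Real.cos y - Real.cos (y + d)| ≤ |l| / 2 ∧
      |Real.cos y - Real.cos (y + d)| * (2 * (|Real.sin x| * |Real.sin z|)) ≤ l ^ 2 / 4 := by
    obtain ⟨_, _, _, j4, j5⟩ := h5 A B dA dB
    have h := h4 A⁻¹ (A * B) j5 hABd (by rw [j4, hF]; exact hF0) (by rw [j4, hF]; exact hF1)
    rw [hcancel2, j4, hF, hsq, iB1, ← eC, ← eA, ← eB, hconj, hmul, (hre _).1, (hre _).1,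
      (hre _).2, (hre _).2, Real.sin_neg, abs_neg] at h
    have e : -x + z = y + d := by rw [hTh]; ring
    rw [e] at h
    exact h
  have hd' : |-d| ≤ 101 / 100 * Real.sqrt |l| := by rw [abs_neg]; exact hD
  intro i j k hijk
  have m0 : n ∈ ({i, j, k} : Finset ℕ) := by rw [hijk]; simp
  have m1 : n + 1 ∈ ({i, j, k} : Finset ℕ) := by rw [hijk]; simp
  have m2 : n + 2 ∈ ({i, j, k} : Finset ℕ) := by rw [hijk]; simp
  simp only [Finset.mem_insert, Finset.mem_singleton] at m0 m1 m2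
  have hcase : (i = n ∧ j = n + 1 ∧ k = n + 2) ∨ (i = n ∧ j = n + 2 ∧ k = n + 1) ∨
      (i = n + 1 ∧ j = n ∧ k = n + 2) ∨ (i = n + 1 ∧ j = n + 2 ∧ k = n) ∨
      (i = n + 2 ∧ j = n ∧ k = n + 1) ∨ (i = n + 2 ∧ j = n + 1 ∧ k = n) := by omega
  have swap : ∀ a b c : ℝ, a * (8 * b * c) = a * (8 * c * b) := fun a b c => by ring
  rcases hcase with ⟨rfl, rfl, rfl⟩ | ⟨rfl, rfl, rfl⟩ | ⟨rfl, rfl, rfl⟩ | ⟨rfl, rfl, rfl⟩ |
    ⟨rfl, rfl, rfl⟩ | ⟨rfl, rfl, rfl⟩
  · rw [swap]
    exact d2_core hl1 hD c0.1 c0.2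
  · exact d2_core hl1 hD c0.1 c0.2
  · exact d2_core hl1 hD c1.1 c1.2
  · rw [swap]
    exact d2_core hl1 hD c1.1 c1.2
  · have := d2_core hl1 hd' c2.1 c2.2
    rw [abs_neg] at this
    exact this
  · rw [swap]
    have := d2_core hl1 hd' c2.1 c2.2
    rw [abs_neg] at this
    exact this

end

end Pool.Agent.Helper36.CV
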