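import Pool.Agent.Helper36.CV.StmtsD

/-!
D7: the modes of the recursion.
-/

set_option autoImplicit false

namespace Pool.Agent.Helper36.CV

noncomputable section

lemma d7_sq : gam ^ 2 = 1 - gam := by
  have h := Real.sq_sqrt (show (0 : ℝ) ≤ 5 by norm_num)
  unfold gam
  nlinarith

lemma d7_phi : phi = 1 + gam := by
  unfold phi gam
  ring

lemma d7_gpos : 0 < gam := by
  have h1 : (1 : ℝ) < Real.sqrt 5 := by
    apply Real.lt_sqrt_of_sq_lt
    norm_num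
  unfold gam
  linarith

/-- `t` in terms of `y = Pol t` -/
lemma d7_inv {t y m : ℝ} (hm : m ≤ 1 / 10) (hy : |y| ≤ m) (h : Pol t = y) :
    |t| ≤ 12 / 10 * m ∧ |t - (y - y ^ 2 / 6)| ≤ m ^ 3 / 10 := by
  have hm0 : 0 ≤ m := (abs_nonneg y).trans hy
  have hfac : y = t * (1 + t / 6 + 2 * t ^ 2 / 45) := by
    rw [← h]
    unfold Pol
    ring
  have h1 : (0.84 : ℝ) ≤ 1 + t / 6 + 2 * t ^ 2 / 45 := by nlinarith [sq_nonneg (t + 15 / 8)]
  have h2 : |t| ≤ 12 / 10 * m := by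
    have e1 : |y| = |t| * (1 + t / 6 + 2 * t ^ 2 / 45) := by
      conv_lhs => rw [hfac]
      rw [abs_mul, abs_of_pos (by linarith : 0 < 1 + t / 6 + 2 * t ^ 2 / 45)]
    have e2 : |t| * 0.84 ≤ |t| * (1 + t / 6 + 2 * t ^ 2 / 45) :=
      mul_le_mul_of_nonneg_left h1 (abs_nonneg t)
    linarith
  refine ⟨h2, ?_⟩
  have h3 : |t| ≤ 12 / 100 := by linarith
  have h4 : t - (y - y ^ 2 / 6) = t ^ 3 * (1 / 90 + 7 / 360 * t + 1 / 405 * (t * t) +
      2 / 6075 * (t * t * t)) := by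
    rw [hfac]
    ring
  rw [h4, abs_mul, abs_pow]
  obtain ⟨h5, h6⟩ := abs_le.1 h3
  have e1 : |t * t| ≤ 12 / 100 * (12 / 100) := by
    rw [abs_mul]
    exact mul_le_mul h3 h3 (abs_nonneg t) (by norm_num)
  obtain ⟨e2, e3⟩ := abs_le.1 e1
  have e4 : |t * t * t| ≤ 12 / 100 * (12 / 100) * (12 / 100) := by
    rw [abs_mul]
    exact mul_le_mul e1 h3 (abs_nonneg t) (by norm_num)
  obtain ⟨e5, e6⟩ := abs_le.1 e4
  have h7 : |1 / 90 + 7 / 360 * t + 1 / 405 * (t * t) + 2 / 6075 * (t * t * t)| ≤ 1 / 20 := by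
    rw [abs_le]
    constructor <;> linarith
  have h8 : |t| ^ 3 ≤ (12 / 10 * m) ^ 3 := pow_le_pow_left₀ (abs_nonneg t) h2 3
  calc |t| ^ 3 * _ ≤ (12 / 10 * m) ^ 3 * (1 / 20) :=
        mul_le_mul h8 h7 (abs_nonneg _) (by positivity)
    _ ≤ m ^ 3 / 10 := by
        have : 0 ≤ m ^ 3 := by positivity
        nlinarith

/-- product of bounds -/
lemma d7_mul {a b A B : ℝ} (ha : |a| ≤ A) (hb : |b| ≤ B) : |a * b| ≤ A * B := by
  rw [abs_mul]
  exact mul_le_mul ha hb (abs_nonneg b) ((abs_nonneg a).trans ha)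

/-- the bilinear form -/
def d7_F (a b c x y z : ℝ) : ℝ := a * x + b * y + c * z - (a * y + b * x) - (a * z + c * x) -
  (b * z + c * y)

lemma d7_F_bound {a b c x y z A B : ℝ} (ha : |a| ≤ A) (hb : |b| ≤ A) (hc : |c| ≤ A)
    (hx : |x| ≤ B) (hy : |y| ≤ B) (hz : |z| ≤ B) : |d7_F a b c x y z| ≤ 9 * (A * B) := by
  obtain ⟨a1, a2⟩ := abs_le.1 (d7_mul ha hx)
  obtain ⟨a3, a4⟩ := abs_le.1 (d7_mul ha hy)
  obtain ⟨a5, a6⟩ := abs_le.1 (d7_mul ha hz)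
  obtain ⟨b1, b2⟩ := abs_le.1 (d7_mul hb hx)
  obtain ⟨b3, b4⟩ := abs_le.1 (d7_mul hb hy)
  obtain ⟨b5, b6⟩ := abs_le.1 (d7_mul hb hz)
  obtain ⟨c1, c2⟩ := abs_le.1 (d7_mul hc hx)
  obtain ⟨c3, c4⟩ := abs_le.1 (d7_mul hc hy)
  obtain ⟨c5, c6⟩ := abs_le.1 (d7_mul hc hz)
  unfold d7_F
  rw [abs_le]
  constructor <;> linarith

lemma d7_ineq {t0 t1 t2 y0 y1 y2 m I : ℝ} (hm : m ≤ 1 / 10) (h0 : |y0| ≤ m) (h1 : |y1| ≤ m)
    (h2 : |y2| ≤ m) (e0 : Pol t0 = y0) (e1 : Pol t1 = y1) (e2 : Pol t2 = y2)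
    (hI : t0 ^ 2 + t1 ^ 2 + t2 ^ 2 - 2 * (t0 * t1 + t0 * t2 + t1 * t2) + 2 * (t0 * t1 * t2) = I) :
    |d7_F y0 y1 y2 y0 y1 y2 - I * (1 + (y0 + y1 + y2) / 3)| ≤ 40 * m ^ 4 := by
  have hm0 : 0 ≤ m := (abs_nonneg y0).trans h0
  obtain ⟨a0, b0⟩ := d7_inv hm h0 e0
  obtain ⟨a1, b1⟩ := d7_inv hm h1 e1
  obtain ⟨a2, b2⟩ := d7_inv hm h2 e2
  -- names
  obtain ⟨r0, hr0⟩ : ∃ r, r = t0 - (y0 - y0 ^ 2 / 6) := ⟨_, rfl⟩
  obtain ⟨r1, hr1⟩ : ∃ r, r = t1 - (y1 - y1 ^ 2 / 6) := ⟨_, rfl⟩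
  obtain ⟨r2, hr2⟩ : ∃ r, r = t2 - (y2 - y2 ^ 2 / 6) := ⟨_, rfl⟩
  rw [← hr0] at b0
  rw [← hr1] at b1
  rw [← hr2] at b2
  obtain ⟨d0, hd0⟩ : ∃ d, d = t0 - y0 := ⟨_, rfl⟩
  obtain ⟨d1, hd1⟩ : ∃ d, d = t1 - y1 := ⟨_, rfl⟩
  obtain ⟨d2, hd2⟩ : ∃ d, d = t2 - y2 := ⟨_, rfl⟩
  have hd : ∀ {t y r d : ℝ}, |y| ≤ m → |r| ≤ m ^ 3 / 10 → r = t - (y - y ^ 2 / 6) → d = t - y →
      |d| ≤ 2 / 10 * m ^ 2 := by
    intro t y r d hy hr hr' hd'
    have f1 : d = r - y * y / 6 := by rw [hr', hd']; ring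
    obtain ⟨f2, f3⟩ := abs_le.1 (d7_mul hy hy)
    obtain ⟨f4, f5⟩ := abs_le.1 hr
    have f6 : m ^ 3 ≤ 1 / 10 * m ^ 2 := by
      have : m ^ 3 = m * m ^ 2 := by ring
      rw [this]
      exact mul_le_mul_of_nonneg_right hm (by positivity)
    have f7 : m * m = m ^ 2 := by ring
    have f8 : 0 ≤ m ^ 2 := by positivity
    rw [f1, abs_le]
    constructor <;> linarith
  have k0 := hd h0 b0 hr0 hd0
  have k1 := hd h1 b1 hr1 hd1
  have k2 := hd h2 b2 hr2 hd2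
  have key : d7_F y0 y1 y2 y0 y1 y2 - I * (1 + (y0 + y1 + y2) / 3) =
      d7_F y0 y1 y2 y0 y1 y2 * ((y0 + y1 + y2) * (y0 + y1 + y2)) / 9 -
      (2 * d7_F y0 y1 y2 r0 r1 r2 + d7_F d0 d1 d2 d0 d1 d2 +
        2 * (d0 * (t1 * t2) + y0 * (d1 * t2) + y0 * (y1 * d2))) * (1 + (y0 + y1 + y2) / 3) := by
    rw [← hI, hr0, hr1, hr2, hd0, hd1, hd2]
    unfold d7_F
    ring
  rw [key]
  have p1 := d7_F_bound h0 h1 h2 h0 h1 h2
  have p2 := d7_F_bound h0 h1 h2 b0 b1 b2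
  have p3 := d7_F_bound k0 k1 k2 k0 k1 k2
  have q0 : |y0 + y1 + y2| ≤ 3 * m := by
    obtain ⟨f1, f2⟩ := abs_le.1 h0
    obtain ⟨f3, f4⟩ := abs_le.1 h1
    obtain ⟨f5, f6⟩ := abs_le.1 h2
    rw [abs_le]
    constructor <;> linarith
  have p4 := d7_mul p1 (d7_mul q0 q0)
  have p5 := d7_mul k0 (d7_mul a1 a2)
  have p6 := d7_mul h0 (d7_mul k1 a2)
  have p7 := d7_mul h0 (d7_mul h1 k2)
  have q1 : |1 + (y0 + y1 + y2) / 3| ≤ 11 / 10 := by
    obtain ⟨f1, f2⟩ := abs_le.1 q0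
    rw [abs_le]
    constructor <;> linarith
  have p8 : |2 * d7_F y0 y1 y2 r0 r1 r2 + d7_F d0 d1 d2 d0 d1 d2 +
        2 * (d0 * (t1 * t2) + y0 * (d1 * t2) + y0 * (y1 * d2))| ≤ 4 * m ^ 4 := by
    obtain ⟨f1, f2⟩ := abs_le.1 p2
    obtain ⟨f3, f4⟩ := abs_le.1 p3
    obtain ⟨f5, f6⟩ := abs_le.1 p5
    obtain ⟨f7, f8⟩ := abs_le.1 p6
    obtain ⟨f9, f10⟩ := abs_le.1 p7
    have m4 : 0 ≤ m ^ 4 := by positivity
    have g1 : 9 * (m * (m ^ 3 / 10)) = 9 / 10 * m ^ 4 := by ring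
    have g2 : 9 * (2 / 10 * m ^ 2 * (2 / 10 * m ^ 2)) = 36 / 100 * m ^ 4 := by ring
    have g3 : 2 / 10 * m ^ 2 * (12 / 10 * m * (12 / 10 * m)) = 288 / 1000 * m ^ 4 := by ring
    have g4 : m * (2 / 10 * m ^ 2 * (12 / 10 * m)) = 24 / 100 * m ^ 4 := by ring
    have g5 : m * (m * (2 / 10 * m ^ 2)) = 2 / 10 * m ^ 4 := by ring
    rw [g1] at f1 f2
    rw [g2] at f3 f4
    rw [g3] at f5 f6
    rw [g4] at f7 f8
    rw [g5] at f9 f10
    rw [abs_le]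
    constructor <;> linarith
  have p9 := d7_mul p8 q1
  obtain ⟨f1, f2⟩ := abs_le.1 p4
  obtain ⟨f3, f4⟩ := abs_le.1 p9
  have m4 : 0 ≤ m ^ 4 := by positivity
  have g1 : 9 * (m * m) * (3 * m * (3 * m)) = 81 * m ^ 4 := by ring
  rw [g1] at f1 f2
  rw [abs_le]
  constructor <;> linarith

lemma d7_sign (x y : ℤ) : (-1 : ℝ) ^ (x + y).natAbs = (-1) ^ x.natAbs * (-1) ^ y.natAbs := by
  have h : ∀ z : ℤ, (-1 : ℝ) ^ z.natAbs = if Even z then 1 else -1 := by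
    intro z
    split_ifs with hz
    · exact Even.neg_one_pow (Int.natAbs_even.2 hz)
    · rw [Int.not_even_iff_odd] at hz
      exact Odd.neg_one_pow (Int.natAbs_odd.2 hz)
  rw [h, h, h]
  by_cases hx : Even x <;> by_cases hy : Even y <;> simp [Int.even_add, hx, hy]

theorem st_D7 (h1 : ST_T1) : ST_D7 := by
  intro l E a b n
  have hg := d7_sq
  have hp := d7_phi
  have hg0 := d7_gpos
  have hp0 : 0 < phi := by rw [hp]; linarith
  have hgp : gam * phi = 1 := by rw [hp]; linear_combination hg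
  have hinvp : 1 / phi = gam := by
    rw [eq_comm, eq_div_iff hp0.ne', hgp]
  have hinvg : 1 / gam = phi := by
    rw [eq_comm, eq_div_iff hg0.ne', mul_comm, hgp]
  have hP : ∀ k, mP l a b k E = gam * (yy l a b (k + 2) E + gam * yy l a b (k + 1) E -
      gam ^ 2 * yy l a b k E) / 5 := by
    intro k
    unfold mP
    rw [← hinvp]
    field_simp
  have hQ : ∀ k, mQ l a b k E = phi * (phi ^ 2 * yy l a b k E + phi * yy l a b (k + 1) E -
      yy l a b (k + 2) E) / 5 := by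
    intro k
    unfold mQ
    rw [← hinvg]
    field_simp
  have hE : ∀ k, ee l a b k E / (5 * phi) = gam * ee l a b k E / 5 := by
    intro k
    rw [← hinvp]
    field_simp
  have hE' : ∀ k, ee l a b k E / (5 * gam) = phi * ee l a b k E / 5 := by
    intro k
    rw [← hinvg]
    field_simp
  have g3 : gam ^ 3 = 2 * gam - 1 := by linear_combination (gam - 1) * hg
  have g4 : gam ^ 4 = 2 - 3 * gam := by linear_combination (gam ^ 2 - gam + 2) * hg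
  have g5 : gam ^ 5 = 5 * gam - 3 := by linear_combination (gam ^ 3 - gam ^ 2 + 2 * gam - 3) * hg
  have g6 : gam ^ 6 = 5 - 8 * gam := by
    linear_combination (gam ^ 4 - gam ^ 3 + 2 * gam ^ 2 - 3 * gam + 5) * hg
  refine ⟨?_, ?_, ?_, ?_, ?_, ?_, ?_⟩
  · rw [hP, hQ, hp]
    unfold mR
    ring_nf
    simp only [hg, g3, g4, g5, g6]
    ring
  · rw [hP, hQ, hp]
    unfold mR
    ring_nf
    simp only [hg, g3, g4, g5, g6]
    ring
  · rw [hP, hQ, hp]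
    unfold mR
    ring_nf
    simp only [hg, g3, g4, g5, g6]
    ring
  · rw [hP, hP, hE, hp]
    unfold ee
    ring_nf
    simp only [hg, g3, g4, g5, g6]
    ring
  · rw [hQ, hQ, hE', hp]
    unfold ee
    ring_nf
    simp only [hg, g3, g4, g5, g6]
    ring
  · unfold mR ee
    ring
  · intro m hm hl k0 k1 k2
    have hT := (h1 l E n).1
    set s0 : ℝ := (-1) ^ (pp a b n).natAbs with hs0
    set s1 : ℝ := (-1) ^ (pp a b (n + 1)).natAbs with hs1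
    have hs2 : (-1 : ℝ) ^ (pp a b (n + 2)).natAbs = s1 * s0 := by
      have : pp a b (n + 2) = pp a b (n + 1) + pp a b n := rfl
      rw [this, d7_sign]
    have q0 : s0 * s0 = 1 := by
      rw [hs0, ← pow_add]
      exact Even.neg_one_pow ⟨_, rfl⟩
    have q1 : s1 * s1 = 1 := by
      rw [hs1, ← pow_add]
      exact Even.neg_one_pow ⟨_, rfl⟩
    have x0 : X l n E = s0 * (1 - tt l a b n E) := by
      unfold tt
      linear_combination (-(X l n E)) * q0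
    have x1 : X l (n + 1) E = s1 * (1 - tt l a b (n + 1) E) := by
      unfold tt
      linear_combination (-(X l (n + 1) E)) * q1
    have x2 : X l (n + 2) E = s1 * s0 * (1 - tt l a b (n + 2) E) := by
      unfold tt
      rw [hs2]
      linear_combination (-(X l (n + 2) E) * (s0 * s0)) * q1 - X l (n + 2) E * q0
    have hI : tt l a b n E ^ 2 + tt l a b (n + 1) E ^ 2 + tt l a b (n + 2) E ^ 2 -
        2 * (tt l a b n E * tt l a b (n + 1) E + tt l a b n E * tt l a b (n + 2) E +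
          tt l a b (n + 1) E * tt l a b (n + 2) E) +
        2 * (tt l a b n E * tt l a b (n + 1) E * tt l a b (n + 2) E) = l ^ 2 / 4 := by
      rw [x0, x1, x2] at hT
      have e1 : (s1 * s0 * (1 - tt l a b (n + 2) E)) ^ 2 = (1 - tt l a b (n + 2) E) ^ 2 := by
        have : (s1 * s0 * (1 - tt l a b (n + 2) E)) ^ 2 =
          (s1 * s1) * (s0 * s0) * (1 - tt l a b (n + 2) E) ^ 2 := by ring
        rw [this, q0, q1]
        ring
      have e2 : (s1 * (1 - tt l a b (n + 1) E)) ^ 2 = (1 - tt l a b (n + 1) E) ^ 2 := by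
        have : (s1 * (1 - tt l a b (n + 1) E)) ^ 2 =
          (s1 * s1) * (1 - tt l a b (n + 1) E) ^ 2 := by ring
        rw [this, q1]
        ring
      have e3 : (s0 * (1 - tt l a b n E)) ^ 2 = (1 - tt l a b n E) ^ 2 := by
        have : (s0 * (1 - tt l a b n E)) ^ 2 =
          (s0 * s0) * (1 - tt l a b n E) ^ 2 := by ring
        rw [this, q0]
        ring
      have e4 : 2 * (s1 * s0 * (1 - tt l a b (n + 2) E)) * (s1 * (1 - tt l a b (n + 1) E)) *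
          (s0 * (1 - tt l a b n E)) = 2 * ((1 - tt l a b (n + 2) E) *
            (1 - tt l a b (n + 1) E) * (1 - tt l a b n E)) := by
        have : 2 * (s1 * s0 * (1 - tt l a b (n + 2) E)) * (s1 * (1 - tt l a b (n + 1) E)) *
          (s0 * (1 - tt l a b n E)) = 2 * ((s1 * s1) * (s0 * s0)) * ((1 - tt l a b (n + 2) E) *
            (1 - tt l a b (n + 1) E) * (1 - tt l a b n E)) := by ring
        rw [this, q0, q1]
        ring
      rw [e1, e2, e3, e4] at hT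
      linear_combination hT
    have h5 := d7_ineq hm k0 k1 k2 rfl rfl rfl hI
    have h6 : 5 * (mR l a b n E ^ 2 - 4 * mP l a b n E * mQ l a b n E) =
        d7_F (yy l a b n E) (yy l a b (n + 1) E) (yy l a b (n + 2) E)
          (yy l a b n E) (yy l a b (n + 1) E) (yy l a b (n + 2) E) := by
      rw [hP, hQ, hp]
      unfold mR d7_F
      ring_nf
      simp only [hg, g3, g4, g5, g6]
      ring
    rw [h6]
    refine h5.trans ?_
    have : 0 ≤ 10 * l ^ 2 * m ^ 2 := by positivity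
    linarith

end

end Pool.Agent.Helper36.CV
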