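import Pool.Agent.Helper36.CV.StmtsO

set_option autoImplicit false

/-! # Reflection of a comb function (F3) -/

namespace Pool.Agent.Helper74.CV

open Filter Topology Pointwise Pool.Agent.Helper36.CV

theorem F3 : ST_F3 := by
  rintro Hm Hp C ⟨U⟩
  refine ⟨?_⟩
  have hre : ∀ w : ℂ, (1 - (starRingEnd ℂ) w).re = 1 - w.re := fun w => by simp
  have him : ∀ w : ℂ, (1 - (starRingEnd ℂ) w).im = w.im := fun w => by simp
  have hneg : ∀ z : ℂ, (-(starRingEnd ℂ) z).im = z.im := fun z => by simp
  have hreal : ∀ x : ℝ, -(starRingEnd ℂ) (x : ℂ) = ((-x : ℝ) : ℂ) := fun x => by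
    simp
  exact
    { f := fun z => 1 - (starRingEnd ℂ) (U.f (-(starRingEnd ℂ) z))
      cont := by
        have h1 : ContinuousOn (fun z : ℂ => -(starRingEnd ℂ) z) {z | 0 ≤ z.im} :=
          (Complex.continuous_conj.neg).continuousOn
        have h2 : Set.MapsTo (fun z : ℂ => -(starRingEnd ℂ) z) {z | 0 ≤ z.im} {z | 0 ≤ z.im} := by
          intro z hz
          change 0 ≤ (-(starRingEnd ℂ) z).im
          rw [hneg]
          exact hz
        exact continuousOn_const.sub
          (Complex.continuous_conj.comp_continuousOn (U.cont.comp h1 h2))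
      ana := by
        intro z hz
        have h1 : DifferentiableAt ℂ U.f (-(starRingEnd ℂ) z) := by
          apply U.ana.differentiableAt
          apply (isOpen_lt continuous_const Complex.continuous_im).mem_nhds
          change 0 < (-(starRingEnd ℂ) z).im
          rw [hneg]
          exact hz
        have h2 : DifferentiableAt ℂ (fun w : ℂ => U.f (-w)) ((starRingEnd ℂ) z) := by
          have h3 : DifferentiableAt ℂ (fun w : ℂ => -w) ((starRingEnd ℂ) z) :=
            differentiableAt_id.neg
          exact DifferentiableAt.comp (f := fun w : ℂ => -w) _ h1 h3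
        have h4 := differentiableAt_conj_conj_iff.2 h2
        exact ((differentiableAt_const (1 : ℂ)).sub h4).differentiableWithinAt
      im_pos := by
        intro z hz
        rw [him]
        apply U.im_pos
        rw [hneg]
        exact hz
      im_nonneg := by
        intro x
        rw [him, hreal]
        exact U.im_nonneg _
      re_mono := by
        intro x y hxy
        rw [hre, hre, hreal, hreal]
        have := U.re_mono (-y) (-x) (by linarith)
        linarith
      re_ends := by
        obtain ⟨R, h1, h2⟩ := U.re_ends
        refine ⟨R, fun x hx => ?_, fun x hx => ?_⟩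
        · rw [hre, hreal, h2 _ (by linarith)]
          norm_num
        · rw [hre, hreal, h1 _ (by linarith)]
          norm_num
      growth := by
        obtain ⟨A, hA⟩ := U.growth
        refine ⟨A + 1, fun z hz => ?_⟩
        have h1 := hA (-(starRingEnd ℂ) z) (by rw [hneg]; exact hz)
        rw [norm_neg, RCLike.norm_conj] at h1
        calc ‖1 - (starRingEnd ℂ) (U.f (-(starRingEnd ℂ) z))‖
            ≤ ‖(1 : ℂ)‖ + ‖(starRingEnd ℂ) (U.f (-(starRingEnd ℂ) z))‖ := norm_sub_le _ _
          _ = 1 + ‖U.f (-(starRingEnd ℂ) z)‖ := by rw [norm_one, RCLike.norm_conj]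
          _ ≤ A + 1 + Real.log (1 + ‖z‖) := by linarith
      zero := by
        intro x
        rw [him, hreal, U.zero, Set.mem_neg]
      lab := by
        intro x hx
        rw [him, hreal] at hx
        obtain ⟨m, n, h1, h2⟩ := U.lab (-x) hx
        refine ⟨-m, 1 - n, ?_, ?_⟩
        · rw [hre, hreal, h1]
          push_cast
          ring
        · rw [him, hreal, Int.cast_neg, abs_neg]
          exact h2
      ex := by
        intro m n hm h1 h2
        obtain ⟨x, hx1, hx2⟩ := U.ex (-m) (1 - n) (neg_ne_zero.2 hm) (by push_cast; linarith)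
          (by push_cast; linarith)
        refine ⟨-x, ?_, ?_⟩
        · rw [hre, hreal, neg_neg, hx1]
          push_cast
          ring
        · rw [him, hreal, neg_neg]
          push_cast at hx2
          rw [abs_neg] at hx2
          exact hx2 }

end Pool.Agent.Helper74.CV
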