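import Pool.Agent.Helper36.CV.StmtsG

set_option autoImplicit false

/-! # One-sided isolated points are ends of pieces (G3) -/

namespace Pool.Agent.Helper74.CV

open Filter Topology Pointwise Pool.Agent.Helper36.CV

theorem cr_succ (i : Fin 3) (m : ℕ) (w : Wd) : cr i (m + 1) w = ch i (cr i m w) := by
  unfold cr ch
  rw [List.replicate_succ, List.cons_append]

theorem cr_zero (i : Fin 3) (w : Wd) : cr i 0 w = w := by
  unfold cr
  simp

theorem ty_abs {c L0 : ℝ} (U : KM c L0) {l : ℝ} (hl : L0 < l) (w : Wd) : |ty w| ≤ 1 := by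
  rcases (U.kd l hl).tv w with h | h | h <;> rw [h] <;> norm_num

theorem ratio_le {c ε t : ℝ} (hc : 1 ≤ c) (hε : 0 < ε) (hε1 : ε ≤ 1 / 20) (hcε : c * ε ≤ 1 / 2)
    (ht : |t| ≤ 1) : ε * (1 + 2 * ε * t) + c * ε ^ 3 ≤ 1 / 2 := by
  obtain ⟨h1, h2⟩ := abs_le.1 ht
  have h3 : ε * (1 + 2 * ε * t) ≤ ε * 2 := by
    apply mul_le_mul_of_nonneg_left _ hε.le
    nlinarith
  have h4 : c * ε ^ 3 = (c * ε) * ε ^ 2 := by ring
  have h5 : (c * ε) * ε ^ 2 ≤ 1 / 2 * ε ^ 2 := mul_le_mul_of_nonneg_right hcε (sq_nonneg _)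
  nlinarith

theorem G3 : ST_G3 := by
  intro c L0 hc
  refine ⟨10 + c, fun U l hl0 hl1 k hk => ?_⟩
  have hl : 0 < l := by linarith
  set ε : ℝ := 1 / (2 * l) with hε
  have hε0 : 0 < ε := by positivity
  have hε1 : ε ≤ 1 / 20 := by
    rw [hε]
    apply one_div_le_one_div_of_le (by norm_num)
    linarith
  have hcε : c * ε ≤ 1 / 2 := by
    rw [hε, mul_one_div, div_le_div_iff₀ (by positivity) (by norm_num)]
    linarith
  have kd := U.kd l hl0
  rw [← hε] at kd
  refine ⟨?_, ?_⟩
  · rintro ⟨δ, hδ, hgap⟩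
    obtain ⟨w, h1, h2, h3⟩ := kd.fn k hk (min δ 1) (lt_min hδ one_pos)
    have h4 : (U.lo w l).re = k := by
      rcases h1.eq_or_lt with h | h
      · exact h
      · exfalso
        have h5 : k - δ < (U.lo w l).re := by
          have := lt_of_lt_of_le h3 (min_le_left _ _)
          linarith
        exact hgap _ ⟨h5, h⟩ (kd.lm w)
    refine ⟨w, fun m => ?_⟩
    induction m with
    | zero =>
      rw [cr_zero, pow_zero]
      refine ⟨h4, ?_⟩
      have := lt_of_lt_of_le h3 (min_le_right _ _)
      unfold len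
      exact this.le
    | succ m ih =>
      rw [cr_succ]
      refine ⟨?_, ?_⟩
      · have := kd.lL (cr 0 m w)
        rw [← ih.1]
        exact this
      · have h5 := (abs_le.1 (kd.nL (cr 0 m w))).2
        have h6 := ratio_le hc hε0 hε1 hcε (ty_abs U hl0 (cr 0 m w))
        have h7 : 0 < len U (cr 0 m w) l := by
          have := kd.lt (cr 0 m w)
          unfold len
          linarith
        have h8 : len U (ch 0 (cr 0 m w)) l ≤ 1 / 2 * len U (cr 0 m w) l := by
          calc len U (ch 0 (cr 0 m w)) l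
              ≤ (ε * (1 + 2 * ε * ty (cr 0 m w)) + c * ε ^ 3) * len U (cr 0 m w) l := by
                unfold len
                linarith
            _ ≤ _ := mul_le_mul_of_nonneg_right h6 h7.le
        calc len U (ch 0 (cr 0 m w)) l ≤ 1 / 2 * len U (cr 0 m w) l := h8
          _ ≤ 1 / 2 * (1 / 2) ^ m := by linarith [ih.2]
          _ = (1 / 2) ^ (m + 1) := by ring
  · rintro ⟨δ, hδ, hgap⟩
    obtain ⟨w, h1, h2, h3⟩ := kd.fn k hk (min δ 1) (lt_min hδ one_pos)
    have h4 : (U.hi w l).re = k := by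
      rcases h2.eq_or_lt with h | h
      · exact h.symm
      · exfalso
        have h5 : (U.hi w l).re < k + δ := by
          have := lt_of_lt_of_le h3 (min_le_left _ _)
          linarith
        exact hgap _ ⟨h, h5⟩ (kd.hm w)
    refine ⟨w, fun m => ?_⟩
    induction m with
    | zero =>
      rw [cr_zero, pow_zero]
      refine ⟨h4, ?_⟩
      have := lt_of_lt_of_le h3 (min_le_right _ _)
      unfold len
      exact this.le
    | succ m ih =>
      rw [cr_succ]
      refine ⟨?_, ?_⟩
      · have := kd.hR (cr 2 m w)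
        rw [← ih.1]
        exact this
      · have h5 := (abs_le.1 (kd.nR (cr 2 m w))).2
        have h6 := ratio_le (t := -ty (cr 2 m w)) hc hε0 hε1 hcε
          (by rw [abs_neg]; exact ty_abs U hl0 (cr 2 m w))
        have h7 : 0 < len U (cr 2 m w) l := by
          have := kd.lt (cr 2 m w)
          unfold len
          linarith
        have h8 : len U (ch 2 (cr 2 m w)) l ≤ 1 / 2 * len U (cr 2 m w) l := by
          calc len U (ch 2 (cr 2 m w)) l
              ≤ (ε * (1 + 2 * ε * -ty (cr 2 m w)) + c * ε ^ 3) * len U (cr 2 m w) l := by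
                unfold len
                linarith
            _ ≤ _ := mul_le_mul_of_nonneg_right h6 h7.le
        calc len U (ch 2 (cr 2 m w)) l ≤ 1 / 2 * len U (cr 2 m w) l := h8
          _ ≤ 1 / 2 * (1 / 2) ^ m := by linarith [ih.2]
          _ = (1 / 2) ^ (m + 1) := by ring

end Pool.Agent.Helper74.CV
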