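import Pool.Agent.Helper36.CV.StmtsW

/-!
W3: maximum principle in the upper half plane.
-/

set_option autoImplicit false

namespace Pool.Agent.Helper36.CV

open Complex Filter Topology

theorem st_W3 : ST_W3 := by
  intro h e he hc hd hr ht z hz
  rcases hz.lt_or_eq with hz0 | hz0
  swap
  · have h1 : z = (z.re : ℂ) := by
      apply Complex.ext
      · simp
      · simpa using hz0.symm
    rw [h1]
    exact hr z.re
  apply le_of_forall_pos_le_add
  intro ε hε
  have hR : ∃ R : ℝ, ∀ w : ℂ, R ≤ ‖w‖ → 0 ≤ w.im → ‖h w‖ ≤ ε := by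
    have h1 := ht (Metric.ball_mem_nhds (0 : ℂ) hε)
    rw [mem_map, mem_inf_principal, ← Metric.cobounded_eq_cocompact] at h1
    obtain ⟨R, _, hR⟩ := (Filter.hasBasis_cobounded_norm (E := ℂ)).mem_iff.1 h1
    refine ⟨R, fun w hw1 hw2 => ?_⟩
    have := hR hw1 hw2
    rw [Set.mem_preimage, Metric.mem_ball, dist_zero_right] at this
    exact this.le
  obtain ⟨R, hR⟩ := hR
  set r : ℝ := max R (‖z‖ + 1) with hr'
  set U : Set ℂ := {w | 0 < w.im} ∩ Metric.ball 0 r with hU
  have hUo : IsOpen U := (isOpen_lt continuous_const Complex.continuous_im).inter Metric.isOpen_ball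
  have hcl : ∀ w ∈ closure U, 0 ≤ w.im ∧ ‖w‖ ≤ r := by
    intro w hw
    have h1 : closure U ⊆ {w : ℂ | 0 ≤ w.im} ∩ Metric.closedBall 0 r := by
      apply closure_minimal
      · intro v hv
        have h0 : 0 < v.im := hv.1
        exact ⟨h0.le, Metric.ball_subset_closedBall hv.2⟩
      · exact (isClosed_le continuous_const Complex.continuous_im).inter Metric.isClosed_closedBall
    have h2 := h1 hw
    refine ⟨h2.1, ?_⟩
    simpa using h2.2
  have hz1 : ‖z‖ < r := lt_of_lt_of_le (by linarith) (le_max_right _ _)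
  have hzU : z ∈ U := ⟨hz0, by simpa using hz1⟩
  refine Complex.norm_le_of_forall_mem_frontier_norm_le (U := U)
    (Metric.isBounded_ball.subset Set.inter_subset_right) ?_ ?_ (subset_closure hzU)
  · constructor
    · exact hd.mono fun w hw => hw.1
    · exact hc.mono fun w hw => (hcl w hw).1
  · intro w hw
    rw [frontier, hUo.interior_eq] at hw
    obtain ⟨hw1, hw2⟩ := hw
    obtain ⟨h1, h2⟩ := hcl w hw1
    rcases h1.lt_or_eq with h3 | h3
    · have h4 : r ≤ ‖w‖ := by
        by_contra hcon
        push Not at hcon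
        exact hw2 ⟨h3, by simpa using hcon⟩
      have := hR w ((le_max_left _ _).trans h4) h1
      linarith
    · have h5 : w = (w.re : ℂ) := by
        apply Complex.ext
        · simp
        · simpa using h3.symm
      rw [h5]
      have := hr w.re
      linarith

end Pool.Agent.Helper36.CV
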