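import Pool.Agent.Helper36.CV.StmtsD

/-!
D3a, D3b: distances to the nearest integer of `x`, `gam x`, `gam ^ L x`.
-/

set_option autoImplicit false

namespace Pool.Agent.Helper36.CV

noncomputable section

lemma d3a_sqrt5 : (2.23606 : ℝ) < Real.sqrt 5 ∧ Real.sqrt 5 < 2.23607 := by
  constructor
  · apply Real.lt_sqrt_of_sq_lt
    norm_num
  · rw [Real.sqrt_lt' (by norm_num)]
    norm_num

lemma d3a_gam : (0.61803 : ℝ) < gam ∧ gam < 0.618035 := by
  obtain ⟨h1, h2⟩ := d3a_sqrt5
  unfold gam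
  constructor <;> linarith

lemma d3a_s5 : Real.sqrt 5 = 2 * gam + 1 := by
  unfold gam
  ring

lemma d3a_sq : gam ^ 2 = 1 - gam := by
  have h := Real.sq_sqrt (show (0 : ℝ) ≤ 5 by norm_num)
  unfold gam
  nlinarith

lemma d3a_pg : (1 + gam) * gam = 1 := by
  have := d3a_sq
  nlinarith

lemma d3a_g3 : gam ^ 3 = 2 * gam - 1 := by
  have h := d3a_sq
  have e4 : gam ^ 3 = gam * gam ^ 2 := by ring
  rw [e4, h]
  linear_combination (-1 : ℝ) * h

lemma d3a_p3 : (1 + gam) ^ 3 = 3 + 2 * gam := by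
  have h := d3a_sq
  have e4 : (1 + gam) ^ 3 = 1 + 3 * gam + 3 * gam ^ 2 + gam * gam ^ 2 := by ring
  rw [e4, h]
  linear_combination (-1 : ℝ) * h

lemma d3a_dz_le (x : ℝ) (m : ℤ) : dz x ≤ |x - m| := round_le x m

lemma d3a_dz_nonneg (x : ℝ) : 0 ≤ dz x := abs_nonneg _

lemma d3a_dz_lip (x y : ℝ) : dz x ≤ |x - y| + dz y := by
  have h1 := d3a_dz_le x (round y)
  have h2 : |x - round y| ≤ |x - y| + |y - round y| := abs_sub_le x y (round y)
  exact h1.trans h2

lemma d3a_norm (n m : ℤ) (h : ¬ (n = 0 ∧ m = 0)) : (1 : ℝ) ≤ |((m : ℝ) - gam * n) * (m + (1 + gam) * n)| := by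
  have h1 : ((m : ℝ) - gam * n) * (m + (1 + gam) * n) = ((m ^ 2 + m * n - n ^ 2 : ℤ) : ℝ) := by
    push_cast
    linear_combination (-(n : ℝ) ^ 2) * d3a_sq
  rw [h1, ← Int.cast_abs]
  have h2 : m ^ 2 + m * n - n ^ 2 ≠ 0 := by
    intro h0
    have h3 : (2 * m + n) ^ 2 = 5 * n ^ 2 := by linear_combination 4 * h0
    by_cases hn : n = 0
    · apply h
      rw [hn] at h3
      have : 2 * m + 0 = 0 := by
        have : (2 * m + 0) ^ 2 = 0 := by rw [h3]; ring
        exact pow_eq_zero_iff (two_ne_zero) |>.1 this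
      exact ⟨hn, by omega⟩
    · have h5 : Irrational (Real.sqrt 5) := Nat.Prime.irrational_sqrt (by norm_num)
      apply h5
      have hn' : (n : ℝ) ≠ 0 := by exact_mod_cast hn
      refine ⟨|(2 * m + n : ℚ) / n|, ?_⟩
      have h6 : (((2 * m + n : ℚ) / n : ℚ) : ℝ) ^ 2 = 5 := by
        have h7 := congrArg (fun z : ℤ => (z : ℝ)) h3
        push_cast at h7
        push_cast
        rw [div_pow, div_eq_iff (pow_ne_zero 2 hn')]
        linarith
      rw [Rat.cast_abs, ← Real.sqrt_sq_eq_abs, h6]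
  have h3 : (1 : ℤ) ≤ |m ^ 2 + m * n - n ^ 2| := Int.one_le_abs h2
  exact_mod_cast h3

theorem st_D3a : ST_D3a := by
  intro x hx
  obtain ⟨g1, g2⟩ := d3a_gam
  obtain ⟨s1, s2⟩ := d3a_sqrt5
  have hK : 3 < Real.sqrt 5 * |x| + 193 / 100 := by nlinarith
  set K := Real.sqrt 5 * |x| + 193 / 100 with hKdef
  set n : ℤ := round x with hn
  set m : ℤ := round (gam * x) with hm
  set M := max (dz x) (dz (gam * x)) with hM
  have hM1 : dz x ≤ M := le_max_left _ _
  have hM2 : dz (gam * x) ≤ M := le_max_right _ _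
  have hw : |(m : ℝ) - gam * n| ≤ (1 + gam) * M := by
    have e1 : (m : ℝ) - gam * n = -(gam * x - m) + gam * (x - n) := by ring
    have e2 : |gam * x - m| ≤ M := hM2
    have e3 : |x - n| ≤ M := hM1
    calc |(m : ℝ) - gam * n| = |-(gam * x - m) + gam * (x - n)| := by rw [e1]
      _ ≤ |-(gam * x - m)| + |gam * (x - n)| := abs_add_le _ _
      _ = |gam * x - m| + gam * |x - n| := by
          rw [abs_neg, abs_mul, abs_of_pos (by linarith : 0 < gam)]
      _ ≤ M + gam * M := by
          apply add_le_add e2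
          exact mul_le_mul_of_nonneg_left e3 (by linarith)
      _ = _ := by ring
  have hdiv : gam / K ≤ 1 / 3 := by
    rw [div_le_div_iff₀ (by linarith) (by norm_num)]
    nlinarith
  by_cases h0 : n = 0 ∧ m = 0
  · have h1 : dz x = |x| := by
      unfold dz
      rw [← hn, h0.1]
      simp
    linarith
  · have h1 := d3a_norm n m h0
    by_contra hcon
    push Not at hcon
    have hgK : (1 + gam) * (gam / K) = 1 / K := by
      rw [← mul_div_assoc, d3a_pg]
    have hMK : |(m : ℝ) - gam * n| < 1 / K := by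
      calc |(m : ℝ) - gam * n| ≤ (1 + gam) * M := hw
        _ < (1 + gam) * (gam / K) := by
            apply mul_lt_mul_of_pos_left hcon (by linarith)
        _ = _ := hgK
    have hK3 : 1 / K < 1 / 3 := by
      apply one_div_lt_one_div_of_lt (by norm_num) hK
    have hn1 : |(n : ℝ)| ≤ |x| + 1 / 2 := by
      have e1 : |x - n| ≤ 1 / 2 := abs_sub_round x
      have e2 : |(n : ℝ)| ≤ |(n : ℝ) - x| + |x| := by
        have := abs_sub_le (n : ℝ) x 0
        simpa using this
      rw [abs_sub_comm] at e2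
      linarith
    have h2 : |(m : ℝ) + (1 + gam) * n| ≤ |(m : ℝ) - gam * n| + Real.sqrt 5 * |(n : ℝ)| := by
      have e1 : (m : ℝ) + (1 + gam) * n = (m - gam * n) + Real.sqrt 5 * n := by
        rw [d3a_s5]
        ring
      rw [e1]
      refine (abs_add_le _ _).trans ?_
      rw [abs_mul, abs_of_pos (by linarith : 0 < Real.sqrt 5)]
    have h3 : |(m : ℝ) + (1 + gam) * n| < K := by
      have e1 : Real.sqrt 5 * |(n : ℝ)| ≤ Real.sqrt 5 * (|x| + 1 / 2) :=
        mul_le_mul_of_nonneg_left hn1 (by linarith)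
      rw [hKdef]
      linarith
    rw [abs_mul] at h1
    have h4 : |(m : ℝ) - gam * n| * |(m : ℝ) + (1 + gam) * n| < 1 / K * K := by
      apply mul_lt_mul'' hMK h3 (abs_nonneg _) (abs_nonneg _)
    rw [one_div_mul_cancel (by linarith : K ≠ 0)] at h4
    linarith

lemma d3b_rec (x : ℝ) (L : ℕ) : (-gam) ^ (L + 1) * x =
    Nat.fib (L + 1) * ((-gam) * x) + Nat.fib L * x := by
  induction L with
  | zero => simp
  | succ L ih =>
    have h1 : (-gam) ^ (L + 1 + 1) * x = -gam * ((-gam) ^ (L + 1) * x) := by ring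
    rw [h1, ih, Nat.fib_add_two]
    push_cast
    linear_combination ((Nat.fib (L + 1) : ℝ) * x) * d3a_sq

lemma d3b_phi (L : ℕ) : (1 + gam) ^ (L + 1) = Real.sqrt 5 * Nat.fib (L + 1) + (-gam) ^ (L + 1) := by
  have h1 := d3b_rec 1 L
  have h2 : (1 + gam) ^ (L + 1) = Nat.fib (L + 1) * (1 + gam) + Nat.fib L := by
    clear h1
    induction L with
    | zero => simp
    | succ L ih =>
      rw [pow_succ, ih, Nat.fib_add_two]
      push_cast
      linear_combination (Nat.fib (L + 1) : ℝ) * d3a_sq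
  rw [h2, d3a_s5]
  rw [mul_one, mul_one, mul_one] at h1
  rw [h1]
  ring

theorem st_D3b (hA : ST_D3a) : ST_D3b := by
  obtain ⟨g1, g2⟩ := d3a_gam
  obtain ⟨s1, s2⟩ := d3a_sqrt5
  refine ⟨1 / 10000, by norm_num, ?_⟩
  intro t x L ht ht0 hL htx hx0 hxL hxL2
  obtain ⟨k, rfl⟩ : ∃ k, L = k + 1 := ⟨L - 1, by omega⟩
  have hg0 : 0 < gam := by linarith
  have hg1 : gam < 1 := by linarith
  have habs : 0 ≤ |x| := abs_nonneg x
  have hpow1 : gam ^ (k + 1) ≤ gam := by
    calc gam ^ (k + 1) = gam ^ k * gam := pow_succ _ _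
      _ ≤ 1 * gam := mul_le_mul_of_nonneg_right (pow_le_one₀ hg0.le hg1.le) hg0.le
      _ = gam := one_mul _
  have hx1 : 1 / 2 ≤ |x| := by nlinarith
  -- integers
  set m : ℤ := (-1) ^ (k + 1) * round (gam ^ (k + 1) * x) with hm
  set m0 : ℤ := round x with hm0
  have hmabs : |(m : ℝ)| = |(round (gam ^ (k + 1) * x) : ℝ)| := by
    rw [hm]
    push_cast
    rw [abs_mul, abs_pow, abs_neg, abs_one, one_pow, one_mul]
  have hmx : |(-gam) ^ (k + 1) * x - m| < 2 * t := by
    have e1 : (-gam) ^ (k + 1) * x - m =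
        (-1) ^ (k + 1) * (gam ^ (k + 1) * x - round (gam ^ (k + 1) * x)) := by
      rw [hm, neg_pow]
      push_cast
      ring
    rw [e1, abs_mul, abs_pow, abs_neg, abs_one, one_pow, one_mul]
    exact hxL
  have hm0x : |x - m0| < 2 * t := hx0
  set F : ℕ := Nat.fib (k + 1) with hF
  set F' : ℕ := Nat.fib k with hF'
  have hFpos : 0 < F := Nat.fib_pos.2 (by omega)
  have hFr : (0 : ℝ) < F := by exact_mod_cast hFpos
  have hF'r : (0 : ℝ) ≤ F' := by positivity
  -- the error
  have herr : |F * ((-gam) * x) - ((m - F' * m0 : ℤ) : ℝ)| < 2 * t * (1 + F') := by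
    have e1 : F * ((-gam) * x) - ((m - F' * m0 : ℤ) : ℝ) =
        ((-gam) ^ (k + 1) * x - m) - F' * (x - m0) := by
      rw [d3b_rec]
      push_cast
      ring
    rw [e1]
    calc |((-gam) ^ (k + 1) * x - m) - F' * (x - m0)|
        ≤ |(-gam) ^ (k + 1) * x - m| + |(F' : ℝ) * (x - m0)| := abs_sub _ _
      _ = |(-gam) ^ (k + 1) * x - m| + F' * |x - m0| := by
          rw [abs_mul, abs_of_nonneg hF'r]
      _ < 2 * t + F' * (2 * t) := by
          apply add_lt_add_of_lt_of_le hmx
          exact mul_le_mul_of_nonneg_left hm0x.le hF'r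
      _ = _ := by ring
  have hdzneg : ∀ y : ℝ, dz (-y) ≤ dz y := by
    intro y
    have := d3a_dz_le (-y) (-round y)
    have e : |-y - ((-round y : ℤ) : ℝ)| = dz y := by
      push_cast
      rw [← abs_neg]
      unfold dz
      congr 1
      ring
    rw [e] at this
    exact this
  -- lower bounds for the maxima
  have hmax0 : 34 / 10 * t ≤ max (dz x) (dz (gam * x)) := by
    refine le_trans ?_ (hA x hx1)
    rw [le_div_iff₀ (by positivity)]
    nlinarith
  have hmax1 : 34 / 10 * t ≤ dz (gam * x) := by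
    rcases le_max_iff.1 hmax0 with h | h
    · linarith
    · exact h
  have hndvd : ¬ ((F : ℤ) ∣ m - F' * m0) := by
    rintro ⟨c, hc⟩
    have h1 : |(-gam) * x - c| < 2 * t * (1 + F') / F := by
      rw [lt_div_iff₀ hFr]
      have e1 : |(-gam) * x - c| * F = |F * ((-gam) * x) - ((m - F' * m0 : ℤ) : ℝ)| := by
        rw [hc]
        push_cast
        rw [← abs_of_pos hFr, ← abs_mul, abs_of_pos hFr]
        congr 1
        ring
      rw [e1]
      exact herr
    have h2 : dz (gam * x) < 2 * t * (1 + F') / F := by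
      have e1 := hdzneg (-(gam * x))
      rw [neg_neg] at e1
      have e2 := d3a_dz_le (-(gam * x)) c
      rw [← neg_mul] at e2 e1
      linarith
    by_cases hk : k = 1
    · subst hk
      have hF1 : F = 1 := by rw [hF]; rfl
      have hF1' : F' = 1 := by rw [hF']; rfl
      rw [hF1, hF1'] at h2
      norm_num at h2
      have hx2 : 1 / 2 ≤ |gam * x| := by
        rw [abs_mul, abs_of_pos hg0]
        have : gam ^ (1 + 1) * |x| = gam * (gam * |x|) := by ring
        rw [this] at hxL2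
        nlinarith [mul_nonneg hg0.le habs]
      have h3 := hA (gam * x) hx2
      have h4 : 55 / 10 * t ≤ max (dz (gam * x)) (dz (gam * (gam * x))) := by
        refine le_trans ?_ h3
        rw [le_div_iff₀ (by positivity), abs_mul, abs_of_pos hg0]
        have e1 : t * (gam * |x|) ≤ 0.050065 := by nlinarith
        have e2 : t * (Real.sqrt 5 * (gam * |x|)) ≤ 0.11195 := by
          have : t * (Real.sqrt 5 * (gam * |x|)) = Real.sqrt 5 * (t * (gam * |x|)) := by ring
          rw [this]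
          nlinarith [mul_nonneg ht.le (mul_nonneg hg0.le habs)]
        nlinarith
      have h5 : gam ^ (1 + 1) * x = gam * (gam * x) := by ring
      rw [h5] at hxL
      rcases le_max_iff.1 h4 with h | h <;> linarith
    · have h3 : (1 + (F' : ℝ)) ≤ F := by
        rcases Nat.eq_zero_or_pos k with hk0 | hk0
        · subst hk0
          rw [hF, hF']
          norm_num
        · obtain ⟨j, rfl⟩ : ∃ j, k = j + 2 := ⟨k - 2, by omega⟩
          have e1 : 1 ≤ Nat.fib (j + 1) := Nat.fib_pos.2 (by omega)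
          have e2 : F = Nat.fib (j + 1) + F' := by
            rw [hF, hF']
            exact Nat.fib_add_two
          have e3 : 1 + F' ≤ F := by omega
          exact_mod_cast e3
      have h4 : 2 * t * (1 + F') / F ≤ 2 * t := by
        rw [div_le_iff₀ hFr]
        nlinarith
      linarith
  have hk2 : 2 ≤ k := by
    by_contra hcon
    apply hndvd
    have : k = 0 ∨ k = 1 := by omega
    rcases this with h | h <;> subst h <;> exact one_dvd _
  have hF2 : 2 ≤ F := by
    have : Nat.fib 3 ≤ Nat.fib (k + 1) := Nat.fib_mono (by omega)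
    exact this
  have hFF' : 1 + (F' : ℝ) ≤ F := by
    obtain ⟨j, rfl⟩ : ∃ j, k = j + 2 := ⟨k - 2, by omega⟩
    have e1 : 1 ≤ Nat.fib (j + 1) := Nat.fib_pos.2 (by omega)
    have e2 : F = Nat.fib (j + 1) + F' := by
      rw [hF, hF']
      exact Nat.fib_add_two
    have e3 : 1 + F' ≤ F := by omega
    exact_mod_cast e3
  -- second claim
  have hB : 1 / (F : ℝ) - 2 * t ≤ dz (gam * x) := by
    have h1 : 1 / (F : ℝ) - 2 * t ≤ |gam * x - round (gam * x)| := by
      set c : ℤ := round (gam * x) with hc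
      have h2 : (1 : ℝ) ≤ |((m - F' * m0 + F * c : ℤ) : ℝ)| := by
        rw [← Int.cast_abs]
        have : m - F' * m0 + F * c ≠ 0 := by
          intro h0
          apply hndvd
          exact ⟨-c, by linarith⟩
        have := Int.one_le_abs this
        exact_mod_cast this
      have h3 : |((m - F' * m0 + F * c : ℤ) : ℝ)| ≤
          |F * ((-gam) * x) - ((m - F' * m0 : ℤ) : ℝ)| + F * |gam * x - c| := by
        have e1 : ((m - F' * m0 + F * c : ℤ) : ℝ) =
            -(F * ((-gam) * x) - ((m - F' * m0 : ℤ) : ℝ)) - F * (gam * x - c) := by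
          push_cast
          ring
        rw [e1]
        refine (abs_sub _ _).trans ?_
        rw [abs_neg, abs_mul, abs_of_pos hFr]
      have h5 : 2 * t * (1 + (F' : ℝ)) ≤ 2 * t * F :=
        mul_le_mul_of_nonneg_left hFF' (by linarith only [ht])
      have h4 : 1 - 2 * t * F ≤ F * |gam * x - c| := by linarith only [h2, h3, herr, h5]
      rw [sub_le_iff_le_add, div_le_iff₀ hFr]
      linarith only [h4]
    exact h1
  -- powers of the golden ratio
  have hphi : (1 + gam) ^ (k + 1) * gam ^ (k + 1) = 1 := by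
    rw [← mul_pow]
    rw [d3a_pg, one_pow]
  have hphiF : 2.118 * (F : ℝ) ≤ (1 + gam) ^ (k + 1) := by
    rw [d3b_phi]
    have e1 : |(-gam) ^ (k + 1)| ≤ 0.2361 := by
      rw [abs_pow, abs_neg, abs_of_pos hg0]
      have e2 : gam ^ (k + 1) ≤ gam ^ 3 := pow_le_pow_of_le_one hg0.le hg1.le (by omega)
      rw [d3a_g3] at e2
      linarith only [e2, g2]
    have e2 := neg_abs_le ((-gam) ^ (k + 1))
    have e3 : (2 : ℝ) ≤ F := by exact_mod_cast hF2
    have e4 : (2.23606 : ℝ) * F ≤ Real.sqrt 5 * F := mul_le_mul_of_nonneg_right s1.le hFr.le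
    linarith only [e1, e2, e3, e4]
  have hphi3 : 4.236 ≤ (1 + gam) ^ (k + 1) := by
    have e1 : (1 + gam) ^ 3 ≤ (1 + gam) ^ (k + 1) :=
      pow_le_pow_right₀ (by linarith) (by omega)
    rw [d3a_p3] at e1
    linarith only [e1, g1]
  have hxphi : |x| = (1 + gam) ^ (k + 1) * (gam ^ (k + 1) * |x|) := by
    rw [← mul_assoc, hphi, one_mul]
  have hmx2 : |(m : ℝ)| - 2 * t ≤ gam ^ (k + 1) * |x| := by
    have e1 : |(-gam) ^ (k + 1) * x| = gam ^ (k + 1) * |x| := by
      rw [abs_mul, abs_pow, abs_neg, abs_of_pos hg0]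
    rw [← e1]
    have e2 := abs_sub_abs_le_abs_sub (m : ℝ) ((-gam) ^ (k + 1) * x)
    rw [abs_sub_comm] at e2
    linarith
  have hm1 : (1 : ℝ) ≤ |(m : ℝ)| := by
    rw [← Int.cast_abs]
    have : m ≠ 0 := by
      intro h0
      rw [h0] at hmx
      have e1 : |(-gam) ^ (k + 1) * x| = gam ^ (k + 1) * |x| := by
        rw [abs_mul, abs_pow, abs_neg, abs_of_pos hg0]
      rw [Int.cast_zero, sub_zero, e1] at hmx
      linarith
    have := Int.one_le_abs this
    exact_mod_cast this
  refine ⟨by omega, hB, ?_, ?_⟩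
  · rw [← hmabs]
    have h1 : dz (gam * x) - 1.2361 * t ≤ dz (gam * (m0 : ℝ)) := by
      have e1 := d3a_dz_lip (gam * x) (gam * (m0 : ℝ))
      have e2 : |gam * x - gam * (m0 : ℝ)| ≤ 1.2361 * t := by
        rw [← mul_sub, abs_mul, abs_of_pos hg0]
        have e3 : gam * |x - m0| ≤ gam * (2 * t) := mul_le_mul_of_nonneg_left hm0x.le hg0.le
        nlinarith only [e3, g2, ht]
      linarith only [e1, e2]
    have h2 : 1 / (F : ℝ) - 3.2361 * t ≤ dz (gam * (m0 : ℝ)) := by linarith only [h1, hB]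
    have h3 : (1 / (F : ℝ) - 3.2361 * t) * |x| ≤ dz (gam * (m0 : ℝ)) * |x| :=
      mul_le_mul_of_nonneg_right h2 habs
    refine le_trans ?_ h3
    have h4 : 2.118 * (|(m : ℝ)| - 2 * t) ≤ 1 / (F : ℝ) * |x| := by
      rw [one_div, inv_mul_eq_div, le_div_iff₀ hFr, hxphi]
      have e1 : 0 ≤ |(m : ℝ)| - 2 * t := by linarith only [hm1, ht0]
      calc 2.118 * (|(m : ℝ)| - 2 * t) * F = (2.118 * F) * (|(m : ℝ)| - 2 * t) := by ring
        _ ≤ (1 + gam) ^ (k + 1) * (gam ^ (k + 1) * |x|) := by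
            apply mul_le_mul hphiF hmx2 e1 (by positivity)
    have h5 : (1 / (F : ℝ) - 3.2361 * t) * |x| = 1 / (F : ℝ) * |x| - 3.2361 * (t * |x|) := by ring
    rw [h5]
    linarith only [h4, htx, hm1, ht0]
  · rw [← hmabs]
    have h1 : |x| - 2 * t ≤ |(m0 : ℝ)| := by
      have e2 := abs_sub_abs_le_abs_sub x (m0 : ℝ)
      linarith only [e2, hm0x]
    have h2 : 4.236 * (|(m : ℝ)| - 2 * t) ≤ |x| := by
      rw [hxphi]
      have e1 : 0 ≤ |(m : ℝ)| - 2 * t := by linarith only [hm1, ht0]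
      exact mul_le_mul hphi3 hmx2 e1 (by positivity)
    linarith only [h1, h2, hm1, ht0]

end

end Pool.Agent.Helper36.CV
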